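import Mathlib
import Pool.Agent.Helper186.AreaMain
import Pool.Agent.Helper186.AreaPi1

/-! A surface of infinite type whose group of area preserving diffeomorphisms is perfect. -/

open scoped Topology ContDiff Manifold commutatorElement
open Set Filter

noncomputable section

namespace Pool.Agent.Results.MP_ac1d8d_gt.PerfectSurface

/-- The model plane: the Euclidean plane. -/
def Plane : Type := EuclideanSpace ℝ (Fin 2)

@[instance_reducible] def normPlane : NormedAddCommGroup Plane :=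
  (inferInstance : NormedAddCommGroup (EuclideanSpace ℝ (Fin 2)))

attribute [instance] normPlane

@[instance_reducible] def spacePlane : NormedSpace ℝ Plane :=
  (inferInstance : NormedSpace ℝ (EuclideanSpace ℝ (Fin 2)))

attribute [instance] spacePlane

section Definitions

variable {S : Type} [TopologicalSpace S] [ChartedSpace Plane S]

/-- The tangent space of the surface `S` at `p`. -/
def Tan (p : S) : Type := TangentSpace 𝓘(ℝ, Plane) p

@[instance_reducible] def topTan (p : S) : TopologicalSpace (Tan p) :=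
  (inferInstance : TopologicalSpace (TangentSpace 𝓘(ℝ, Plane) p))

attribute [instance] topTan

@[instance_reducible] def groupTan (p : S) : AddCommGroup (Tan p) :=
  (inferInstance : AddCommGroup (TangentSpace 𝓘(ℝ, Plane) p))

attribute [instance] groupTan

@[instance_reducible] def moduleTan (p : S) : Module ℝ (Tan p) :=
  (inferInstance : Module ℝ (TangentSpace 𝓘(ℝ, Plane) p))

attribute [instance] moduleTan

/-- Continuous bilinear forms on the tangent space at `p`. -/
abbrev Bilinear (p : S) : Type := Tan p →L[ℝ] Tan p →L[ℝ] ℝ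

/-- The value of a bilinear form. -/
def Bilinear.eval {p : S} (B : Bilinear p) (u v : Tan p) : ℝ := B u v

/-- Smooth real functions on `S`. -/
def SmoothFunction (f : S → ℝ) : Prop := ContMDiff 𝓘(ℝ, Plane) 𝓘(ℝ, ℝ) ∞ f

/-- Smooth maps from `S` to `S`. -/
def SmoothMap (f : S → S) : Prop := ContMDiff 𝓘(ℝ, Plane) 𝓘(ℝ, Plane) ∞ f

/-- The derivative of the map `f` at `p`, applied to a tangent vector. -/
def derivativeAt (f : S → S) (p : S) (v : Tan p) : Tan (f p) :=
  mfderiv 𝓘(ℝ, Plane) 𝓘(ℝ, Plane) f p v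

variable [IsManifold 𝓘(ℝ, Plane) ∞ S]

/-- Smooth vector fields: smooth sections of the tangent bundle. -/
def SmoothField (X : (p : S) → Tan p) : Prop :=
  ContMDiff 𝓘(ℝ, Plane) 𝓘(ℝ, Plane).tangent ∞
    (fun p => (⟨p, X p⟩ : TangentBundle 𝓘(ℝ, Plane) S))

end Definitions

/-- An area form on a smooth surface: a smooth nowhere vanishing differential form of degree two,
given as an alternating bilinear form on each tangent space. Smoothness is expressed by evaluating
on pairs of smooth vector fields. -/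
structure AreaForm (S : Type) [TopologicalSpace S] [ChartedSpace Plane S]
    [IsManifold 𝓘(ℝ, Plane) ∞ S] where
  form : (p : S) → Bilinear p
  alternating : ∀ (p : S) (v : Tan p), (form p).eval v v = 0
  nonvanishing : ∀ p : S, ∃ u v : Tan p, (form p).eval u v ≠ 0
  smooth : ∀ X Y : (p : S) → Tan p, SmoothField X → SmoothField Y →
    SmoothFunction (fun p => (form p).eval (X p) (Y p))

/-- The map `f` preserves the form: the pullback of the form under `f` is the form. -/
def Preserves {S : Type} [TopologicalSpace S] [ChartedSpace Plane S]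
    [IsManifold 𝓘(ℝ, Plane) ∞ S] (a : AreaForm S) (f : S → S) : Prop :=
  ∀ (p : S) (u v : Tan p),
    (a.form (f p)).eval (derivativeAt f p u) (derivativeAt f p v) = (a.form p).eval u v

variable {S : Type} [TopologicalSpace S] [ChartedSpace Plane S] [IsManifold 𝓘(ℝ, Plane) ∞ S]

omit [IsManifold 𝓘(ℝ, Plane) ∞ S] in
lemma SmoothMap.comp {f g : S → S} (hf : SmoothMap f) (hg : SmoothMap g) : SmoothMap (f ∘ g) :=
  ContMDiff.comp (I' := 𝓘(ℝ, Plane)) hf hg

lemma Preserves.comp {a : AreaForm S} {f g : S → S} (hf : Preserves a f) (hg : Preserves a g)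
    (sf : SmoothMap f) (sg : SmoothMap g) : Preserves a (f ∘ g) := by
  intro p u v
  have h1 : mfderiv 𝓘(ℝ, Plane) 𝓘(ℝ, Plane) (f ∘ g) p =
      (mfderiv 𝓘(ℝ, Plane) 𝓘(ℝ, Plane) f (g p)).comp (mfderiv 𝓘(ℝ, Plane) 𝓘(ℝ, Plane) g p) :=
    mfderiv_comp p ((sf (g p)).mdifferentiableAt (by simp)) ((sg p).mdifferentiableAt (by simp))
  have e : ∀ w : Tan p, derivativeAt (f ∘ g) p w = derivativeAt f (g p) (derivativeAt g p w) :=
    fun w => DFunLike.congr_fun h1 w
  rw [e, e]
  exact (hf (g p) _ _).trans (hg p u v)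

lemma Preserves.inv {a : AreaForm S} {f : Equiv.Perm S} (hf : Preserves a f)
    (sf : SmoothMap f) (sg : SmoothMap f.symm) : Preserves a f.symm := by
  have key : ∀ q p : S, f q = p → ∀ u v : Tan p,
      (a.form (f.symm p)).eval (derivativeAt f.symm p u) (derivativeAt f.symm p v) =
        (a.form p).eval u v := by
    rintro q _ rfl u v
    have h0 : f ∘ f.symm = id := by funext x; simp
    have h1 : (mfderiv 𝓘(ℝ, Plane) 𝓘(ℝ, Plane) f (f.symm (f q))).comp
        (mfderiv 𝓘(ℝ, Plane) 𝓘(ℝ, Plane) f.symm (f q)) =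
        mfderiv 𝓘(ℝ, Plane) 𝓘(ℝ, Plane) (f ∘ f.symm) (f q) :=
      (mfderiv_comp (f q) ((sf _).mdifferentiableAt (by simp))
        ((sg _).mdifferentiableAt (by simp))).symm
    have h2 : mfderiv 𝓘(ℝ, Plane) 𝓘(ℝ, Plane) (f ∘ f.symm) (f q) =
        mfderiv 𝓘(ℝ, Plane) 𝓘(ℝ, Plane) (id : S → S) (f q) := by rw [h0]
    have h3 := h1.trans (h2.trans mfderiv_id)
    have h4 := hf (f.symm (f q)) (derivativeAt f.symm (f q) u) (derivativeAt f.symm (f q) v)
    rw [← h4]
    have e : ∀ w : Plane, (derivativeAt f (f.symm (f q)) (derivativeAt f.symm (f q) w) : Plane) =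
        w := fun w => DFunLike.congr_fun h3 w
    have e5 : ∀ (x : S) (hx : x = f q) (a1 a2 : Plane) (u v : Plane), a1 = u → a2 = v →
        (a.form x).eval a1 a2 = (a.form (f q)).eval u v := by
      rintro x rfl a1 a2 u v rfl rfl; rfl
    exact e5 _ (f.apply_symm_apply _) _ _ _ _ (e u) (e v)
  intro p
  exact key (f.symm p) p (f.apply_symm_apply p)

lemma Preserves.one (a : AreaForm S) : Preserves a ((1 : Equiv.Perm S) : S → S) := by
  intro p u v
  have h : mfderiv 𝓘(ℝ, Plane) 𝓘(ℝ, Plane) (id : S → S) p = ContinuousLinearMap.id ℝ _ :=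
    mfderiv_id
  have e : ∀ w : Tan p, (derivativeAt ((1 : Equiv.Perm S) : S → S) p w : Plane) = w :=
    fun w => DFunLike.congr_fun h w
  change (a.form p).eval (derivativeAt ((1 : Equiv.Perm S) : S → S) p u)
    (derivativeAt ((1 : Equiv.Perm S) : S → S) p v) = (a.form p).eval u v
  rw [show derivativeAt ((1 : Equiv.Perm S) : S → S) p u = u from e u,
    show derivativeAt ((1 : Equiv.Perm S) : S → S) p v = v from e v]

/-- The group of all smooth diffeomorphisms of `S` preserving the area form, under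
composition. -/
def DiffArea (a : AreaForm S) : Subgroup (Equiv.Perm S) where
  carrier := {f | SmoothMap f ∧ SmoothMap f.symm ∧ Preserves a f}
  one_mem' := ⟨contMDiff_id, contMDiff_id, Preserves.one a⟩
  mul_mem' := by
    rintro f g ⟨f1, f2, f3⟩ ⟨g1, g2, g3⟩
    exact ⟨f1.comp g1, g2.comp f2, f3.comp g3 f1 g1⟩
  inv_mem' := by
    rintro f ⟨f1, f2, f3⟩
    exact ⟨f2, f1, f3.inv f1 f2⟩

/-- Infinite type: the fundamental group is not finitely generated. -/
def InfiniteType (S : Type) [TopologicalSpace S] : Prop :=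
  ∀ x : S, ¬ Group.FG (FundamentalGroup S x)

/-! ### The example -/

instance : SecondCountableTopology Plane :=
  (inferInstance : SecondCountableTopology (EuclideanSpace ℝ (Fin 2)))

open Pool.Agent.Helper186.Area

/-- Linear identification of the plane with the complex numbers. -/
def cc : Plane ≃L[ℝ] ℂ :=
  Complex.orthonormalBasisOneI.repr.symm.toContinuousLinearEquiv

/-- The surface as an open subset of the plane. -/
def U : TopologicalSpace.Opens Plane := ⟨cc ⁻¹' surf.S, surf.isOpen.preimage cc.continuous⟩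

/-- The inclusion in the complex plane. -/
def kap (p : U) : ℂ := cc p.1

lemma kap_mem (p : U) : kap p ∈ surf.S := p.2

lemma contMDiff_kap : ContMDiff 𝓘(ℝ, Plane) 𝓘(ℝ, ℂ) ∞ kap :=
  cc.contDiff.contMDiff.comp contMDiff_subtype_val

lemma kap_injective : Function.Injective kap := fun _ _ h => Subtype.ext (cc.injective h)

/-- The surface as a subtype of the complex plane. -/
def kapE : U ≃ {z : ℂ // z ∈ surf.S} where
  toFun p := ⟨kap p, p.2⟩
  invFun z := ⟨cc.symm z.1, by
    change cc (cc.symm z.1) ∈ surf.S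
    rw [cc.apply_symm_apply]; exact z.2⟩
  left_inv p := Subtype.ext (cc.symm_apply_apply p.1)
  right_inv z := Subtype.ext (cc.apply_symm_apply z.1)

lemma kapE_apply (p : U) : ((kapE p : {z : ℂ // z ∈ surf.S}) : ℂ) = kap p := rfl

/-- The derivative of the inclusion. -/
def J (p : U) : TangentSpace 𝓘(ℝ, Plane) p →L[ℝ] ℂ := mfderiv 𝓘(ℝ, Plane) 𝓘(ℝ, ℂ) kap p

open Classical in
/-- Inverse of the inclusion near a point. -/
def sec (p : U) (z : ℂ) : U := if h : z ∈ surf.S then kapE.symm ⟨z, h⟩ else p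

open Classical in
lemma sec_kap (p : U) {z : ℂ} (h : z ∈ surf.S) : kap (sec p z) = z := by
  rw [sec, dif_pos h, ← kapE_apply, Equiv.apply_symm_apply]

lemma contMDiffAt_sec (p : U) {z : ℂ} (h : z ∈ surf.S) :
    ContMDiffAt 𝓘(ℝ, ℂ) 𝓘(ℝ, Plane) ∞ (sec p) z := by
  rw [← ContMDiffAt.subtypeVal_comp_iff]
  have h1 : ContMDiffAt 𝓘(ℝ, ℂ) 𝓘(ℝ, Plane) ∞ (fun z : ℂ => cc.symm z) z :=
    cc.symm.contDiff.contMDiff.contMDiffAt
  refine h1.congr_of_eventuallyEq ?_
  filter_upwards [surf.isOpen.mem_nhds h] with w hw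
  have h2 := sec_kap p hw
  rw [kap] at h2
  change (sec p w).1 = cc.symm w
  rw [← h2, cc.symm_apply_apply, h2]

lemma J_surjective (p : U) : Function.Surjective (J p) := by
  intro v
  have key : ∀ q : U, q = p → ∃ u : TangentSpace 𝓘(ℝ, Plane) q, J q u = v := by
    have h1 : sec p (kap p) = p := kap_injective (sec_kap p (kap_mem p))
    rw [← h1]
    rintro _ rfl
    have h2 := (contMDiffAt_sec p (kap_mem p)).mdifferentiableAt (by simp)
    have h3 : MDifferentiableAt 𝓘(ℝ, Plane) 𝓘(ℝ, ℂ) kap (sec p (kap p)) :=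
      (contMDiff_kap _).mdifferentiableAt (by simp)
    have h4 := mfderiv_comp (kap p) h3 h2
    have h5 : kap ∘ sec p =ᶠ[𝓝 (kap p)] id := by
      filter_upwards [surf.isOpen.mem_nhds (kap_mem p)] with w hw using sec_kap p hw
    rw [h5.mfderiv_eq, mfderiv_id] at h4
    refine ⟨mfderiv 𝓘(ℝ, ℂ) 𝓘(ℝ, Plane) (sec p) (kap p) v, ?_⟩
    exact (DFunLike.congr_fun h4 v).symm
  exact key p rfl

/-- The standard area form as a bilinear map. -/
def B0 : ℂ →L[ℝ] ℂ →L[ℝ] ℝ :=
  Complex.reCLM.smulRight Complex.imCLM - Complex.imCLM.smulRight Complex.reCLM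

lemma B0_apply (u v : ℂ) : B0 u v = w0 u v := by
  simp [B0, w0]

lemma contMDiff_J {X : (p : U) → TangentSpace 𝓘(ℝ, Plane) p}
    (hX : ContMDiff 𝓘(ℝ, Plane) (𝓘(ℝ, Plane)).tangent ∞ (fun p => (⟨p, X p⟩ : TangentBundle 𝓘(ℝ, Plane) U))) :
    ContMDiff 𝓘(ℝ, Plane) 𝓘(ℝ, ℂ) ∞ (fun p => J p (X p)) := by
  have h1 : ContMDiff (𝓘(ℝ, Plane)).tangent 𝓘(ℝ, ℂ).tangent ∞ (tangentMap 𝓘(ℝ, Plane) 𝓘(ℝ, ℂ) kap) :=
    contMDiff_kap.contMDiff_tangentMap (by simp)
  exact (contMDiff_snd_tangentBundle_modelSpace ℂ 𝓘(ℝ, ℂ)).comp (h1.comp hX)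

lemma contMDiff_rho : ContMDiff 𝓘(ℝ, Plane) 𝓘(ℝ, ℝ) ∞ (fun p : U => rho (kap p)) := by
  intro p
  have h1 : ContDiffAt ℝ ∞ rho (kap p) := surf.smooth _ (kap_mem p)
  exact h1.contMDiffAt.comp p (contMDiff_kap p)

/-- Pullback of the standard area form under a linear map. -/
def pullB (A : Plane →L[ℝ] ℂ) : Plane →L[ℝ] Plane →L[ℝ] ℝ := B0.bilinearComp A A

/-- The area form of the example. -/
def area : AreaForm U where
  form p := rho (kap p) • pullB (J p)
  alternating p v := by
    change rho (kap p) • (B0 (J p v) (J p v)) = 0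
    rw [B0_apply, w0]; simp [mul_comm]
  nonvanishing p := by
    obtain ⟨u, hu⟩ := J_surjective p 1
    obtain ⟨v, hv⟩ := J_surjective p Complex.I
    refine ⟨u, v, ?_⟩
    change rho (kap p) • (B0 (J p u) (J p v)) ≠ 0
    rw [hu, hv, B0_apply, w0_one_I]
    have h2 := rho_pos _ (kap_mem p)
    simp only [smul_eq_mul, mul_one]
    exact h2.ne'
  smooth X Y hX hY := by
    have h1 := contMDiff_J hX
    have h2 := contMDiff_J hY
    have h3 : ContMDiff 𝓘(ℝ, Plane) 𝓘(ℝ, ℝ) ∞ (fun p => B0 (J p (X p)) (J p (Y p))) := by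
      have h4 : ContDiff ℝ ∞ (fun q : ℂ × ℂ => B0 q.1 q.2) :=
        (B0.contDiff.comp contDiff_fst).clm_apply contDiff_snd
      exact h4.contMDiff.comp (h1.prodMk_space h2)
    exact contMDiff_rho.mul h3

lemma area_apply (p : U) (u v : TangentSpace 𝓘(ℝ, Plane) p) :
    (area.form p).eval u v = rho (kap p) * w0 (J p u) (J p v) := by
  change rho (kap p) • (B0 (J p u) (J p v)) = _
  rw [B0_apply]; rfl

open Classical in
/-- Extension of a permutation of the surface to the complex plane. -/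
def Ex : Equiv.Perm U →* Equiv.Perm ℂ := Equiv.Perm.extendDomainHom kapE

open Classical in
lemma Ex_kap (g : Equiv.Perm U) (p : U) : Ex g (kap p) = kap (g p) := by
  have := Equiv.Perm.extendDomain_apply_image g kapE p
  exact this

open Classical in
lemma Ex_not (g : Equiv.Perm U) {z : ℂ} (hz : z ∉ surf.S) : Ex g z = z :=
  Equiv.Perm.extendDomain_apply_not_subtype g kapE hz

open Classical in
lemma Ex_injective : Function.Injective Ex := Equiv.Perm.extendDomainHom_injective kapE

lemma exists_kap {z : ℂ} (hz : z ∈ surf.S) : ∃ p : U, kap p = z :=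
  ⟨kapE.symm ⟨z, hz⟩, by rw [← kapE_apply, Equiv.apply_symm_apply]⟩

lemma Ex_surj {f : Equiv.Perm ℂ} (hf : f ∈ surf.G) : ∃ g : Equiv.Perm U, Ex g = f := by
  have h : ∀ z, z ∈ surf.S ↔ f z ∈ surf.S := fun z => (G_mem_iff hf).symm
  let g : Equiv.Perm U := (kapE.trans (f.subtypePerm fun z => (h z).symm)).trans kapE.symm
  refine ⟨g, Equiv.ext fun z => ?_⟩
  by_cases hz : z ∈ surf.S
  · obtain ⟨p, rfl⟩ := exists_kap hz
    rw [Ex_kap]
    change kap (kapE.symm (f.subtypePerm (fun z => (h z).symm) (kapE p))) = f (kap p)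
    rw [← kapE_apply, Equiv.apply_symm_apply]
    rfl
  · rw [Ex_not g hz, hf.1 z hz]

lemma smooth_iff (g : Equiv.Perm U) (p : U) :
    ContMDiffAt 𝓘(ℝ, Plane) 𝓘(ℝ, Plane) ∞ g p ↔ ContDiffAt ℝ ∞ (Ex g) (kap p) := by
  have hfun : (fun x : U => (fun y : Plane => Ex g (cc y)) x) = fun x : U => cc (g x).1 :=
    funext fun x => Ex_kap g x
  have h0 : ContMDiffAt 𝓘(ℝ, Plane) 𝓘(ℝ, Plane) ∞ g p ↔
      ContMDiffAt 𝓘(ℝ, Plane) 𝓘(ℝ, ℂ) ∞ (fun x : U => cc (g x).1) p := by
    constructor
    · intro h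
      exact (contMDiff_kap (g p)).comp p h
    · intro h
      rw [← ContMDiffAt.subtypeVal_comp_iff]
      have h1 : ContMDiffAt 𝓘(ℝ, ℂ) 𝓘(ℝ, Plane) ∞ (fun z : ℂ => cc.symm z) (cc (g p).1) :=
        cc.symm.contDiff.contMDiff.contMDiffAt
      have h2 := h1.comp p h
      refine h2.congr_of_eventuallyEq (Eventually.of_forall fun x => ?_)
      change (g x).1 = cc.symm (cc (g x).1)
      rw [cc.symm_apply_apply]
  rw [h0, ← hfun]
  refine (contMDiffAt_subtype_iff (U := U) (f := fun y : Plane => Ex g (cc y)) (x := p)).trans ?_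
  constructor
  · intro h
    have h1 : ContDiffAt ℝ ∞ (fun y : Plane => Ex g (cc y)) p.1 := h.contDiffAt
    have h2 : ContDiffAt ℝ ∞ (fun z : ℂ => cc.symm z) (kap p) := cc.symm.contDiff.contDiffAt
    have h3 : cc.symm (kap p) = p.1 := cc.symm_apply_apply p.1
    rw [← h3] at h1
    have h4 := h1.comp (kap p) h2
    refine h4.congr_of_eventuallyEq (Eventually.of_forall fun z => ?_)
    change Ex g z = Ex g (cc (cc.symm z))
    rw [cc.apply_symm_apply]
  · intro h
    have h1 : ContDiffAt ℝ ∞ (fun y : Plane => Ex g (cc y)) p.1 :=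
      ContDiffAt.comp (g := Ex g) (f := fun y : Plane => cc y) p.1 h cc.contDiff.contDiffAt
    exact h1.contMDiffAt

lemma deriv_rel (g : Equiv.Perm U) (p : U) (h : ContMDiffAt 𝓘(ℝ, Plane) 𝓘(ℝ, Plane) ∞ g p)
    (u : TangentSpace 𝓘(ℝ, Plane) p) :
    J (g p) (mfderiv 𝓘(ℝ, Plane) 𝓘(ℝ, Plane) g p u) = fderiv ℝ (Ex g) (kap p) (J p u) := by
  have h1 : kap ∘ g = Ex g ∘ kap := funext fun x => (Ex_kap g x).symm
  have h2 := mfderiv_comp p ((contMDiff_kap (g p)).mdifferentiableAt (by simp))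
    (h.mdifferentiableAt (by simp))
  have h3 : MDifferentiableAt 𝓘(ℝ, ℂ) 𝓘(ℝ, ℂ) (Ex g) (kap p) :=
    (((smooth_iff g p).1 h).differentiableAt (by simp)).mdifferentiableAt
  have h4 := mfderiv_comp p h3 ((contMDiff_kap p).mdifferentiableAt (by simp))
  rw [mfderiv_eq_fderiv] at h4
  have h5 : mfderiv 𝓘(ℝ, Plane) 𝓘(ℝ, ℂ) (kap ∘ g) p = mfderiv 𝓘(ℝ, Plane) 𝓘(ℝ, ℂ) (Ex g ∘ kap) p := by
    rw [h1]
  have h6 := (h2.symm.trans h5).trans h4
  exact DFunLike.congr_fun h6 u

lemma preserves_iff (g : Equiv.Perm U) : Preserves area g ↔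
    ∀ (p : U) (u v : TangentSpace 𝓘(ℝ, Plane) p),
      rho (kap (g p)) * w0 (J (g p) (mfderiv 𝓘(ℝ, Plane) 𝓘(ℝ, Plane) g p u))
        (J (g p) (mfderiv 𝓘(ℝ, Plane) 𝓘(ℝ, Plane) g p v)) =
      rho (kap p) * w0 (J p u) (J p v) :=
  ⟨fun h p u v => (area_apply _ _ _).symm.trans ((h p u v).trans (area_apply _ _ _)),
    fun h p u v => (area_apply _ _ _).trans ((h p u v).trans (area_apply _ _ _).symm)⟩

lemma mem_iff (g : Equiv.Perm U) : g ∈ DiffArea area ↔ Ex g ∈ surf.G := by
  constructor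
  · rintro ⟨h1, h2, h3⟩
    refine ⟨fun z hz => Ex_not g hz, fun z hz => ?_⟩
    obtain ⟨p, rfl⟩ := exists_kap hz
    refine ⟨(smooth_iff g p).1 (h1 p), fun u v => ?_⟩
    obtain ⟨u', rfl⟩ := J_surjective p u
    obtain ⟨v', rfl⟩ := J_surjective p v
    have h4 := (preserves_iff g).1 h3 p u' v'
    rw [deriv_rel g p (h1 p), deriv_rel g p (h1 p)] at h4
    rw [Ex_kap]
    exact h4
  · intro h
    have hs : ∀ g : Equiv.Perm U, Ex g ∈ surf.G → ContMDiff 𝓘(ℝ, Plane) 𝓘(ℝ, Plane) ∞ g := fun g hg p =>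
      (smooth_iff g p).2 (hg.2 _ (kap_mem p)).1
    have hinv : Ex g⁻¹ ∈ surf.G := by rw [map_inv]; exact surf.G.inv_mem h
    refine ⟨hs g h, hs g⁻¹ hinv, (preserves_iff g).2 fun p u v => ?_⟩
    have h4 := (h.2 _ (kap_mem p)).2 (J p u) (J p v)
    rw [deriv_rel g p (hs g h p), deriv_rel g p (hs g h p), ← Ex_kap]
    exact h4

/-- Every element is a product of two commutators. -/
theorem two_commutators (g : DiffArea area) :
    ∃ a b c d : DiffArea area, g = ⁅a, b⁆ * ⁅c, d⁆ := by
  obtain ⟨a, ha, b, hb, c, hc, d, hd, h⟩ := main_perm ((mem_iff g.1).1 g.2)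
  obtain ⟨a', rfl⟩ := Ex_surj ha
  obtain ⟨b', rfl⟩ := Ex_surj hb
  obtain ⟨c', rfl⟩ := Ex_surj hc
  obtain ⟨d', rfl⟩ := Ex_surj hd
  refine ⟨⟨a', (mem_iff _).2 ha⟩, ⟨b', (mem_iff _).2 hb⟩, ⟨c', (mem_iff _).2 hc⟩,
    ⟨d', (mem_iff _).2 hd⟩, ?_⟩
  apply Subtype.ext
  apply Ex_injective
  rw [h]
  simp only [commutatorElement_def, Subgroup.coe_mul, InvMemClass.coe_inv, map_mul, map_inv]

lemma preconnected_U : IsPreconnected (U : Set Plane) := by
  have h1 : (U : Set Plane) = cc.symm '' surf.S := by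
    ext x
    constructor
    · intro hx
      exact ⟨cc x, hx, cc.symm_apply_apply x⟩
    · rintro ⟨z, hz, rfl⟩
      change cc (cc.symm z) ∈ surf.S
      rw [cc.apply_symm_apply]; exact hz
  rw [h1]
  exact isConn_surf.image _ cc.symm.continuous.continuousOn

lemma nonempty_U : (U : Set Plane).Nonempty := by
  refine ⟨cc.symm 10, ?_⟩
  change cc (cc.symm 10) ∈ surf.S
  rw [cc.apply_symm_apply]; exact esc_ten

instance : ConnectedSpace U :=
  isConnected_iff_connectedSpace.1 ⟨nonempty_U, preconnected_U⟩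

instance : PathConnectedSpace U := by
  have h := (U.isOpen.isConnected_iff_isPathConnected).1 ⟨nonempty_U, preconnected_U⟩
  exact isPathConnected_iff_pathConnectedSpace.1 h

lemma infiniteType_U : InfiniteType U := by
  intro x
  refine not_fg (X := U) kap contMDiff_kap.continuous (fun n p h => ?_) (fun n => ?_) x
  · exact not_esc_center n (by rw [← h]; exact kap_mem p)
  · have hmem : ∀ t : ℝ, (n * tau + Complex.exp (2 * Real.pi * t * Complex.I) : ℂ) ∈ surf.S := by
      intro t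
      have hn : ‖Complex.exp (2 * Real.pi * t * Complex.I)‖ = 1 := by
        have := Complex.norm_exp_ofReal_mul_I (2 * Real.pi * t)
        push_cast at this
        exact this
      refine esc_of_le ?_
      rw [red_of_near (k := n) (by rw [add_sub_cancel_left, hn]; norm_num), add_sub_cancel_left, hn]
    refine ⟨fun t => kapE.symm ⟨_, hmem t⟩, ?_, ?_, fun t => ?_⟩
    · refine Continuous.subtype_mk ?_ _
      refine cc.symm.continuous.comp ?_
      fun_prop
    · refine congrArg kapE.symm (Subtype.ext ?_)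
      push_cast
      rw [mul_one, mul_zero, zero_mul, Complex.exp_zero, Complex.exp_two_pi_mul_I]
    · rw [← kapE_apply, Equiv.apply_symm_apply]

/-- Sanity check: the group of the example is not trivial. -/
theorem exists_ne_one : ∃ g : DiffArea area, g ≠ 1 := by
  obtain ⟨g, hg⟩ := Ex_surj (Tr_mem 1)
  refine ⟨⟨g, (mem_iff g).2 (by rw [hg]; exact Tr_mem 1)⟩, fun h => ?_⟩
  have h1 : g = 1 := congrArg Subtype.val h
  rw [h1, map_one] at hg
  have h2 : (1 : Equiv.Perm ℂ) 10 = Tr 1 10 := by rw [hg]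
  rw [Tr_apply esc_ten, Equiv.Perm.one_apply] at h2
  have h3 := congrArg Complex.re h2
  simp [tau_re] at h3

/-- There is a surface of infinite type with an area form whose group of area preserving
diffeomorphisms is perfect. -/
theorem result : ∃ (S : Type) (_ : TopologicalSpace S) (_ : ChartedSpace Plane S)
    (_ : IsManifold 𝓘(ℝ, Plane) ∞ S) (_ : T2Space S) (_ : SecondCountableTopology S)
    (_ : ConnectedSpace S) (a : AreaForm S),
    InfiniteType S ∧ Group.IsPerfect (DiffArea a) := by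
  refine ⟨U, inferInstance, inferInstance, inferInstance, inferInstance, inferInstance,
    inferInstance, area, infiniteType_U, ⟨?_⟩⟩
  rw [eq_top_iff]
  intro g _
  obtain ⟨a, b, c, d, rfl⟩ := two_commutators g
  exact Subgroup.mul_mem _ (Subgroup.commutator_mem_commutator (Subgroup.mem_top _)
    (Subgroup.mem_top _)) (Subgroup.commutator_mem_commutator (Subgroup.mem_top _)
    (Subgroup.mem_top _))

end Pool.Agent.Results.MP_ac1d8d_gt.PerfectSurface
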